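import Mathlib

/-!
# Definitions used in the statement on eleven general points on a smooth plane cubic
-/

set_option autoImplicit false

namespace Pool.Agent.MPafef76

open MvPolynomial

/-- A form in three variables whose gradient does not vanish away from the origin, so that its
zero locus in the projective plane is a smooth curve. -/
def SmoothForm (F : MvPolynomial (Fin 3) ℂ) : Prop :=
  ∀ p : Fin 3 → ℂ, p ≠ 0 → ∃ i, eval p (pderiv i F) ≠ 0

/-- The saturated homogeneous ideal `I(Z)` of the set `Z` of the eleven points `[z i]` of the
projective plane: the polynomials vanishing on the cone over `Z`, the union of the lines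
`ℂ z i`. -/
noncomputable def coneIdeal (z : Fin 11 → Fin 3 → ℂ) : Ideal (MvPolynomial (Fin 3) ℂ) :=
  vanishingIdeal ℂ {x : Fin 3 → ℂ | ∃ (i : Fin 11) (t : ℂ), x = t • z i}

/-- `A` is the local ring of a prime divisor over `Spec R` (in the statement `R` is the polynomial
ring in three variables): a discrete valuation ring containing `R`, essentially of finite type
over it, with the same fraction field (every element of `A` is a fraction of elements of `R`). -/
structure IsPrimeDivisor (R A : Type) [CommRing R] [CommRing A] [IsDomain A]
    [IsDiscreteValuationRing A] [Algebra R A] : Prop where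
  injective : Function.Injective (algebraMap R A)
  birational : ∀ x : A, ∃ r s : R, s ≠ 0 ∧ algebraMap R A s * x = algebraMap R A r
  essFiniteType : Algebra.EssFiniteType R A

/-- The multiplier ideal `J(𝔞 ^ c)` for an ideal `𝔞` of `R` (in the statement `R` is the polynomial
ring in three variables): the intersection, over all prime divisors `E` over `Spec R`, of the
ideals of the `f` with `ord_E f ≥ ⌊c * ord_E 𝔞⌋ - ord_E K`. Here `A` is the local ring of `E`, the
number `n` is `ord_E 𝔞`, and the order `k` along `E` of the relative canonical divisor `K` is the
length of the module of relative differentials of `A` over `R`. -/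
noncomputable def multiplierIdeal {R : Type} [CommRing R] (𝔞 : Ideal R) (c : ℝ) : Ideal R :=
  ⨅ (A : Type) (_ : CommRing A) (_ : IsDomain A) (_ : IsDiscreteValuationRing A)
    (_ : Algebra R A) (_ : IsPrimeDivisor R A) (n : ℕ) (k : ℕ)
    (_ : 𝔞.map (algebraMap R A) = IsLocalRing.maximalIdeal A ^ n)
    (_ : Module.length A (Ω[A⁄R]) = k),
    (IsLocalRing.maximalIdeal A ^ (⌊c * n⌋₊ - k)).comap (algebraMap R A)

end Pool.Agent.MPafef76
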