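import Mathlib
import Pool.Agent.Work.MP_afef76_ag.Bd.B02

/-!
# Closed formula for the multiplier ideals
-/

set_option autoImplicit false

namespace Pool.Agent.MPafef76

open MvPolynomial

lemma mem_pow_of_homog {p : P3} {e j : ℕ} (hp : p.IsHomogeneous e) (hj : j ≤ e) :
    p ∈ idealOfVars (Fin 3) ℂ ^ j := by
  rw [mem_pow_idealOfVars_iff]
  intro x hx
  have h1 : Finsupp.degree x = e := by
    rw [Finsupp.degree_eq_weight_one]
    exact hp (mem_support_iff.mp hx)
  omega

lemma component_of_mem_pow {p : P3} {j : ℕ} (hp : p ∈ idealOfVars (Fin 3) ℂ ^ j) {e : ℕ}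
    (he : e < j) : homogeneousComponent e p = 0 := by
  ext x
  rw [coeff_homogeneousComponent, coeff_zero]
  split_ifs with h
  · exact (mem_pow_idealOfVars_iff' j p).mp hp x (by omega)
  · rfl

lemma mul_mem_expIdeal {F G H : P3} {c : ℝ} {j a b d : ℕ} {p : P3}
    (hp : p ∈ idealOfVars (Fin 3) ℂ ^ j)
    (hB : 4 * c < j + 4 * a + 4 * b + 5 * d + 4) (hC : 5 * c < j + 5 * a + 5 * b + 5 * d + 6)
    (hD : c < a + b + d + 2) : p * (F ^ a * G ^ b * H ^ d) ∈ expIdeal F G H c := by
  rw [← sum_homogeneousComponent p, Finset.sum_mul]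
  refine Ideal.sum_mem _ fun e _ => ?_
  rcases Nat.lt_or_ge e j with he | he
  · rw [component_of_mem_pow hp he, zero_mul]
    exact Ideal.zero_mem _
  · have he' : (j : ℝ) ≤ e := by exact_mod_cast he
    have h1 : homogeneousComponent e p * (F ^ a * G ^ b * H ^ d) =
        homogeneousComponent e p * F ^ a * G ^ b * H ^ d := by ring
    rw [h1]
    exact mem_expIdeal_gen (homogeneousComponent_isHomogeneous e p) (by linarith) (by linarith) hD

/-- Powers of the three-generated ideal. -/
lemma pow_span_triple_le (F G H : P3) (k : ℕ) : Ideal.span {F, G, H} ^ k ≤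
    Ideal.span {x | ∃ a b d : ℕ, a + b + d = k ∧ x = F ^ a * G ^ b * H ^ d} := by
  induction k with
  | zero =>
    rw [pow_zero]
    refine le_of_eq_of_le ?_ (Ideal.span_mono (s := {1}) ?_)
    · rw [Ideal.span_singleton_one, Ideal.one_eq_top]
    · rintro _ rfl
      exact ⟨0, 0, 0, rfl, by ring⟩
  | succ k ih =>
    rw [pow_succ]
    refine le_trans (Ideal.mul_mono_left ih) ?_
    rw [Ideal.span_mul_span', Ideal.span_le]
    rintro _ ⟨x, ⟨a, b, d, hk, rfl⟩, y, hy, rfl⟩
    refine Ideal.subset_span ?_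
    rcases hy with rfl | rfl | hy
    · exact ⟨a + 1, b, d, by omega, by simp only; ring⟩
    · exact ⟨a, b + 1, d, by omega, by simp only; ring⟩
    · rw [Set.mem_singleton_iff] at hy
      subst hy
      exact ⟨a, b, d + 1, by omega, by simp only; ring⟩

lemma pow_span_pair_le (F G : P3) (k : ℕ) : Ideal.span {F, G} ^ k ≤
    Ideal.span {x | ∃ a b : ℕ, a + b = k ∧ x = F ^ a * G ^ b} := by
  induction k with
  | zero =>
    rw [pow_zero]
    refine le_of_eq_of_le ?_ (Ideal.span_mono (s := {1}) ?_)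
    · rw [Ideal.span_singleton_one, Ideal.one_eq_top]
    · rintro _ rfl
      exact ⟨0, 0, rfl, by ring⟩
  | succ k ih =>
    rw [pow_succ]
    refine le_trans (Ideal.mul_mono_left ih) ?_
    rw [Ideal.span_mul_span', Ideal.span_le]
    rintro _ ⟨x, ⟨a, b, hk, rfl⟩, y, hy, rfl⟩
    refine Ideal.subset_span ?_
    rcases hy with rfl | hy
    · exact ⟨a + 1, b, by omega, by simp only; ring⟩
    · rw [Set.mem_singleton_iff] at hy
      subst hy
      exact ⟨a, b + 1, by omega, by simp only; ring⟩

lemma mem_pow_triple (F G H : P3) {a b d k : ℕ} (h : k ≤ a + b + d) :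
    F ^ a * G ^ b * H ^ d ∈ Ideal.span {F, G, H} ^ k := by
  refine Ideal.pow_le_pow_right h ?_
  rw [pow_add, pow_add]
  refine Ideal.mul_mem_mul (Ideal.mul_mem_mul ?_ ?_) ?_
  · exact Ideal.pow_mem_pow (Ideal.subset_span (by simp)) _
  · exact Ideal.pow_mem_pow (Ideal.subset_span (by simp)) _
  · exact Ideal.pow_mem_pow (Ideal.subset_span (by simp)) _

/-- **Closed formula.** -/
theorem expIdeal_closed (F G H : P3) (n : ℕ) {s : ℝ} (hs0 : 0 ≤ s) (hs1 : s < 1) :
    expIdeal F G H (n + 1 + s) = Ideal.span {F, G, H} ^ (n + 1) ⊔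
      idealOfVars (Fin 3) ℂ ^ (⌊4 * s⌋₊ + 1) * Ideal.span {F, G} ^ n ⊔
      idealOfVars (Fin 3) ℂ ^ ⌊5 * s⌋₊ * (Ideal.span {H} * Ideal.span {F, G, H} ^ (n - 1)) := by
  have hf4 : 4 * s < ⌊4 * s⌋₊ + 1 := Nat.lt_floor_add_one _
  have hf5 : 5 * s < ⌊5 * s⌋₊ + 1 := Nat.lt_floor_add_one _
  have hg4 : (⌊4 * s⌋₊ : ℝ) ≤ 4 * s := Nat.floor_le (by linarith)
  have hg5 : (⌊5 * s⌋₊ : ℝ) ≤ 5 * s := Nat.floor_le (by linarith)
  apply le_antisymm
  · rw [expIdeal, Ideal.span_le]
    rintro x ⟨e, a, b, d, p, hp, hB, hC, hD, rfl⟩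
    have hk : n ≤ a + b + d := by
      have h1 : (n : ℝ) < ((a + b + d + 1 : ℕ) : ℝ) := by push_cast; linarith
      have h2 : n < a + b + d + 1 := by exact_mod_cast h1
      omega
    have hx : p * F ^ a * G ^ b * H ^ d = p * (F ^ a * G ^ b * H ^ d) := by ring
    rw [hx]
    rcases Nat.lt_or_ge n (a + b + d) with hk1 | hk1
    · refine Ideal.mem_sup_left (Ideal.mem_sup_left ?_)
      exact Ideal.mul_mem_left _ _ (mem_pow_triple F G H (by omega))
    have hkn : a + b + d = n := by omega
    have hkR : (a : ℝ) + b + d = n := by exact_mod_cast hkn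
    rcases Nat.eq_zero_or_pos d with hd | hd
    · subst hd
      refine Ideal.mem_sup_left (Ideal.mem_sup_right ?_)
      refine Ideal.mul_mem_mul ?_ ?_
      · refine mem_pow_of_homog hp ?_
        have h1 : (⌊4 * s⌋₊ : ℝ) < e := by push_cast at hB hkR; linarith
        have h2 : ⌊4 * s⌋₊ < e := by exact_mod_cast h1
        omega
      · rw [pow_zero, mul_one, ← hkn, add_zero, pow_add]
        exact Ideal.mul_mem_mul (Ideal.pow_mem_pow (Ideal.subset_span (by simp)) _)
          (Ideal.pow_mem_pow (Ideal.subset_span (by simp)) _)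
    · refine Ideal.mem_sup_right ?_
      refine Ideal.mul_mem_mul ?_ ?_
      · refine mem_pow_of_homog hp ?_
        have h1 : (⌊5 * s⌋₊ : ℝ) < ((e + 1 : ℕ) : ℝ) := by push_cast; linarith
        have h2 : ⌊5 * s⌋₊ < e + 1 := by exact_mod_cast h1
        omega
      · obtain ⟨d', rfl⟩ : ∃ d', d = d' + 1 := ⟨d - 1, by omega⟩
        have h1 : F ^ a * G ^ b * H ^ (d' + 1) = H * (F ^ a * G ^ b * H ^ d') := by ring
        rw [h1]
        exact Ideal.mul_mem_mul (Ideal.mem_span_singleton_self _)
          (mem_pow_triple F G H (by omega))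
  · refine sup_le (sup_le ?_ ?_) ?_
    · refine le_trans (pow_span_triple_le F G H (n + 1)) ?_
      rw [Ideal.span_le]
      rintro _ ⟨a, b, d, hk, rfl⟩
      have hkR : (a : ℝ) + b + d = n + 1 := by exact_mod_cast hk
      have hd0 : (0 : ℝ) ≤ d := Nat.cast_nonneg _
      have h1 : F ^ a * G ^ b * H ^ d = 1 * (F ^ a * G ^ b * H ^ d) := by ring
      rw [h1]
      refine mul_mem_expIdeal (j := 0) ?_ ?_ ?_ ?_
      · rw [pow_zero, Ideal.one_eq_top]; exact Submodule.mem_top
      · push_cast; linarith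
      · push_cast; linarith
      · linarith
    · rw [Ideal.mul_le]
      intro p hp k hk
      have hk' := pow_span_pair_le F G n hk
      clear hk
      induction hk' using Submodule.span_induction with
      | mem x hx =>
        obtain ⟨a, b, hab, rfl⟩ := hx
        have habR : (a : ℝ) + b = n := by exact_mod_cast hab
        have h1 : F ^ a * G ^ b = F ^ a * G ^ b * H ^ 0 := by ring
        rw [h1]
        refine mul_mem_expIdeal hp ?_ ?_ ?_
        · push_cast; linarith
        · push_cast; linarith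
        · push_cast; linarith
      | zero => rw [mul_zero]; exact Ideal.zero_mem _
      | add x y _ _ hx hy => rw [mul_add]; exact Ideal.add_mem _ hx hy
      | smul r x _ hx =>
        rw [smul_eq_mul, mul_left_comm]; exact Ideal.mul_mem_left _ _ hx
    · rw [Ideal.mul_le]
      intro p hp k hk
      rw [Ideal.mem_span_singleton_mul] at hk
      obtain ⟨k, hk, rfl⟩ := hk
      have hk' := pow_span_triple_le F G H (n - 1) hk
      clear hk
      induction hk' using Submodule.span_induction with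
      | mem x hx =>
        obtain ⟨a, b, d, hab, rfl⟩ := hx
        have h1 : H * (F ^ a * G ^ b * H ^ d) = F ^ a * G ^ b * H ^ (d + 1) := by ring
        have hd0 : (0 : ℝ) ≤ d := Nat.cast_nonneg _
        have hnR : (n : ℝ) ≤ a + b + d + 1 := by
          have : n ≤ a + b + d + 1 := by omega
          exact_mod_cast this
        rw [h1]
        refine mul_mem_expIdeal hp ?_ ?_ ?_
        · push_cast; linarith
        · push_cast; linarith
        · push_cast; linarith
      | zero => rw [mul_zero, mul_zero]; exact Ideal.zero_mem _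
      | add x y _ _ hx hy => rw [mul_add, mul_add]; exact Ideal.add_mem _ hx hy
      | smul r x _ hx =>
        have h1 : p * (H * r • x) = r * (p * (H * x)) := by rw [smul_eq_mul]; ring
        rw [h1]; exact Ideal.mul_mem_left _ _ hx

lemma expIdeal_low (F G H : P3) {c : ℝ} (hc : c < 1) : expIdeal F G H c = ⊤ := by
  rw [Ideal.eq_top_iff_one]
  have h1 : (1 : P3) = 1 * F ^ 0 * G ^ 0 * H ^ 0 := by ring
  rw [h1]
  refine mem_expIdeal_gen (isHomogeneous_one _ _) ?_ ?_ ?_
  · push_cast; linarith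
  · push_cast; linarith
  · push_cast; linarith

end Pool.Agent.MPafef76
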