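import Mathlib
import Pool.Agent.Work.MP_afef76_ag.Bd.B01

/-!
# Good position is a nonempty open condition
-/

set_option autoImplicit false

namespace Pool.Agent.MPafef76

open MvPolynomial Module

lemma tanD_ne {F G : P3} {n m : ℕ} (hF : F.IsHomogeneous n) (hG : G.IsHomogeneous m)
    {p a : Fin 3 → ℂ} (hp : p ≠ 0) (hpF : eval p F = 0) (hpG : eval p G = 0)
    (htr : Transversal F G p) (ha : ∑ i, a i * p i ≠ 0) : tanD F a p G ≠ 0 := by
  intro h0
  set f := grad F p with hf
  set g := grad G p with hg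
  have ef : p 0 * f 0 + p 1 * f 1 + p 2 * f 2 = 0 := by
    have := euler_eval hF p
    rw [hpF, mul_zero, Fin.sum_univ_three] at this
    exact this
  have eg : p 0 * g 0 + p 1 * g 1 + p 2 * g 2 = 0 := by
    have := euler_eval hG p
    rw [hpG, mul_zero, Fin.sum_univ_three] at this
    exact this
  rw [tanD_apply, ← hf, ← hg] at h0
  simp only [cr, Fin.sum_univ_three, Matrix.cons_val_zero, Matrix.cons_val_one,
    Matrix.cons_val] at h0
  -- the cross product of the gradients is parallel to p
  have hpar : Par p (cr f g) := by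
    intro i j
    fin_cases i <;> fin_cases j <;>
      simp only [cr, Fin.zero_eta, Fin.mk_one, Fin.reduceFinMk, Matrix.cons_val_zero,
        Matrix.cons_val_one, Matrix.cons_val] 
    · linear_combination (g 2) * ef - (f 2) * eg
    · linear_combination (-(g 1)) * ef + (f 1) * eg
    · linear_combination (-(g 2)) * ef + (f 2) * eg
    · linear_combination (g 0) * ef - (f 0) * eg
    · linear_combination (g 1) * ef - (f 1) * eg
    · linear_combination (-(g 0)) * ef + (f 0) * eg
  obtain ⟨μ, hμ⟩ := hpar.exists_smul hp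
  have c0 : f 1 * g 2 - f 2 * g 1 = μ * p 0 := congrFun hμ 0
  have c1 : f 2 * g 0 - f 0 * g 2 = μ * p 1 := congrFun hμ 1
  have c2 : f 0 * g 1 - f 1 * g 0 = μ * p 2 := congrFun hμ 2
  rw [Fin.sum_univ_three] at ha
  have hμ0 : μ * (a 0 * p 0 + a 1 * p 1 + a 2 * p 2) = 0 := by
    linear_combination (-1 : ℂ) * h0 - a 0 * c0 - a 1 * c1 - a 2 * c2
  have hμ1 : μ = 0 := (mul_eq_zero.mp hμ0).resolve_right ha
  rw [hμ1] at c0 c1 c2
  -- hence the gradients are dependent
  have hf0 : f = 0 := by
    funext j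
    have : (g j) • grad F p + (-(f j)) • grad G p = 0 := by
      rw [← hf, ← hg]
      funext i
      simp only [Pi.add_apply, Pi.smul_apply, smul_eq_mul, Pi.zero_apply]
      fin_cases i <;> fin_cases j <;>
        simp only [Fin.zero_eta, Fin.mk_one, Fin.reduceFinMk]
      · ring
      · linear_combination c2
      · linear_combination -c1
      · linear_combination -c2
      · ring
      · linear_combination c0
      · linear_combination c1
      · linear_combination -c0
      · ring
    have := (htr _ _ this).2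
    simpa using this
  have : (1 : ℂ) • grad F p + (0 : ℂ) • grad G p = 0 := by
    rw [← hf, hf0]; simp
  exact one_ne_zero (htr _ _ this).1

lemma exists_dual {N : ℕ} (z : Fin N → Fin 3 → ℂ) (hz : ∀ i, z i ≠ 0) :
    ∃ a : Fin 3 → ℂ, ∀ i, ∑ k, a k * z i k ≠ 0 := by
  have hne : ∀ i, (∑ k, C (z i k) * X k : P3) ≠ 0 := by
    intro i h
    apply hz i
    funext k
    have := congrArg (eval (Pi.single k 1)) h
    rw [map_sum, map_zero, Finset.sum_eq_single k] at this
    · simpa using this
    · intro b _ hb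
      simp [hb]
    · simp
  have hprod : (∏ i, (∑ k, C (z i k) * X k : P3)) ≠ 0 := Finset.prod_ne_zero_iff.mpr fun i _ => hne i
  by_contra hcon
  push Not at hcon
  apply hprod
  apply MvPolynomial.funext
  intro a
  obtain ⟨i, hi⟩ := hcon a
  rw [map_zero, map_prod]
  apply Finset.prod_eq_zero (Finset.mem_univ i)
  rw [map_sum, ← hi]
  refine Finset.sum_congr rfl fun k _ => ?_
  rw [map_mul, eval_C, eval_X, mul_comm]

theorem exists_good {F : P3} (hF : F.IsHomogeneous 3) (hs : SmoothForm F) :
    ∃ (a : Fin 3 → ℂ) (z : Fin 11 → Fin 3 → ℂ), (∀ i, z i ≠ 0) ∧ (∀ i, eval (z i) F = 0) ∧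
      Good F a z := by
  have hirr : Irreducible F := hs.irreducible hF
  obtain ⟨G, p, hG, hFG, hp, hpF, hpG, hpar⟩ := exists_twelve hF hirr
  have hrel : IsRelPrime F G := hirr.isRelPrime_iff_not_dvd.mpr hFG
  have hF0 : F ≠ 0 := hirr.ne_zero
  have hG0 : G ≠ 0 := by rintro rfl; exact hFG (dvd_zero _)
  have hzeros : ∀ w : Fin 3 → ℂ, w ≠ 0 → eval w F = 0 → eval w G = 0 → ∃ i, Par (p i) w := by
    intro w hw h1 h2
    by_contra hcon
    push Not at hcon
    set p13 : Fin 13 → Fin 3 → ℂ := Fin.lastCases w p with hp13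
    have hpc' : ∀ i : Fin 12, p13 i.castSucc = p i := fun i => by
      simp only [hp13, Fin.lastCases_castSucc]
    have hpl' : p13 (Fin.last 12) = w := by simp only [hp13, Fin.lastCases_last]
    have := card_zeros_le (N := 13) hF hG hrel hF0 hG0 (p := p13) ?_ ?_ ?_ ?_
    · omega
    · intro i
      refine Fin.lastCases ?_ (fun i => ?_) i
      · rw [hpl']; exact hw
      · rw [hpc']; exact hp i
    · intro i j
      refine Fin.lastCases ?_ (fun i => ?_) i
      · refine Fin.lastCases ?_ (fun j => ?_) j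
        · intro h; exact absurd rfl h
        · intro _ h
          rw [hpl', hpc'] at h
          exact hcon j h.symm
      · refine Fin.lastCases ?_ (fun j => ?_) j
        · intro _ h
          rw [hpl', hpc'] at h
          exact hcon i h
        · intro h
          rw [hpc', hpc']
          exact hpar i j (fun h' => h (by rw [h']))
    · intro i
      refine Fin.lastCases ?_ (fun i => ?_) i
      · rw [hpl']; exact h1
      · rw [hpc']; exact hpF i
    · intro i
      refine Fin.lastCases ?_ (fun i => ?_) i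
      · rw [hpl']; exact h2
      · rw [hpc']; exact hpG i
  have htrans : ∀ w : Fin 3 → ℂ, w ≠ 0 → eval w F = 0 → eval w G = 0 → Transversal F G w := by
    intro w hw h1 h2
    obtain ⟨i, hi⟩ := hzeros w hw h1 h2
    obtain ⟨c, hc⟩ := hi.exists_smul (hp i)
    have hc0 : c ≠ 0 := by rintro rfl; exact hw (by rw [hc, zero_smul])
    rw [hc]
    exact (transversal_of_card hF hG hrel hF0 hG0 hp hpar hpF hpG (by norm_num)
      (fun i => hs.grad_ne (hp i)) i).smul hF hG hc0
  set z : Fin 11 → Fin 3 → ℂ := fun i => p i.castSucc with hz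
  set w : Fin 3 → ℂ := p (Fin.last 11) with hw
  have hzne : ∀ i, z i ≠ 0 := fun i => hp _
  have hzF : ∀ i, eval (z i) F = 0 := fun i => hpF _
  have hzG : ∀ i, eval (z i) G = 0 := fun i => hpG _
  obtain ⟨a, ha⟩ := exists_dual z hzne
  refine ⟨a, z, hzne, hzF, ?_⟩
  intro i y c
  have htan : tanD F a (z i) G ≠ 0 :=
    tanD_ne hF hG (hzne i) (hzF i) (hzG i) (htrans _ (hzne i) (hzF i) (hzG i)) (ha i)
  let T : P3 →ₗ[ℂ] (Fin 12 → ℂ) :=
    LinearMap.pi (Fin.lastCases (tanD F a (z i))
      (fun j => (aeval (z j) : P3 →ₐ[ℂ] ℂ).toLinearMap))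
  have hTc : ∀ (f : P3) (j : Fin 11), T f j.castSucc = eval (z j) f := by
    intro f j
    simp only [T, LinearMap.pi_apply, Fin.lastCases_castSucc]
    rfl
  have hTl : ∀ (f : P3), T f (Fin.last 11) = tanD F a (z i) f := by
    intro f
    simp only [T, LinearMap.pi_apply, Fin.lastCases_last]
  let T' : Fm 4 →ₗ[ℂ] (Fin 12 → ℂ) := T.comp (Fm 4).subtype
  have hT' : ∀ f : Fm 4, T' f = T f.1 := fun f => rfl
  have hdim := LinearMap.finrank_range_add_finrank_ker T'
  rw [finrank_Fm] at hdim
  set K : Submodule ℂ P3 := (LinearMap.ker T').map (Fm 4).subtype with hK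
  have hKrank : finrank ℂ K = finrank ℂ (LinearMap.ker T') :=
    (LinearEquiv.finrank_eq
      (Submodule.equivMapOfInjective _ (Submodule.injective_subtype _) _)).symm
  have hle : K ≤ mulSub F 1 := by
    rintro _ ⟨⟨Q, hQ⟩, hQ2, rfl⟩
    simp only [SetLike.mem_coe, LinearMap.mem_ker] at hQ2
    rw [hT'] at hQ2
    change Q ∈ mulSub F 1
    change T Q = 0 at hQ2
    have hQ4 : Q.IsHomogeneous 4 := hQ
    have hQz : ∀ j, eval (z j) Q = 0 := fun j => by
      rw [← hTc, hQ2]; rfl
    have hQt : tanD F a (z i) Q = 0 := by rw [← hTl, hQ2]; rfl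
    have hQw : eval w Q = 0 := by
      refine cayley_bacharach hF hG hrel hF0 hG0 (hp _) (hpF _) (hpG _) htrans hQ ?_
      intro v hv h1 h2 hwv
      obtain ⟨k, hk⟩ := hzeros v hv h1 h2
      revert hk
      refine Fin.lastCases ?_ (fun k => ?_) k
      · intro hk; exact absurd hk hwv
      · intro hk
        obtain ⟨c, hc⟩ := hk.exists_smul (hp _)
        rw [hc, eval_smul_homog hQ4]
        have := hQz k
        rw [hz] at this
        rw [this, mul_zero]
    have hmem : Q ∈ Ideal.span {F, G} := by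
      refine noether hF hG hrel hF0 hG0 htrans ?_
      intro v hv h1 h2 t
      obtain ⟨k, hk⟩ := hzeros v hv h1 h2
      obtain ⟨c, hc⟩ := hk.exists_smul (hp _)
      rw [hc, smul_smul]
      apply eval_line_of_homog hQ4
      clear hk hc
      revert k
      intro k
      refine Fin.lastCases ?_ (fun k => ?_) k
      · exact hQw
      · exact hQz k
    obtain ⟨α, β, hαβ, hα, hβ, -, -⟩ := exists_homog_pair hF hG hQ4 hmem
    have hβ' : β.IsHomogeneous 0 := hβ
    rw [← totalDegree_zero_iff_isHomogeneous, totalDegree_eq_zero_iff_eq_C] at hβ'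
    rw [hαβ, hβ', map_add, tanD_mul, tanD_self, hzF, ← smul_eq_C_mul, map_smul] at hQt
    have hb : coeff 0 β = 0 := by
      have : coeff 0 β * tanD F a (z i) G = 0 := by simpa using hQt
      exact (mul_eq_zero.mp this).resolve_right htan
    refine ⟨α, hα, ?_⟩
    rw [LinearMap.mulLeft_apply, hαβ, hβ', hb, C_0, zero_mul, add_zero, mul_comm]
  have hKle := Submodule.finrank_mono hle
  have hFle := finrank_mulSub_le F 1
  have h15 : (4 + 2).choose 2 = 15 := by decide
  have h3 : (1 + 2).choose 2 = 3 := by decide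
  have hr12 : finrank ℂ (LinearMap.range T') = 12 := by
    have h1 := Submodule.finrank_le (LinearMap.range T')
    rw [Module.finrank_fin_fun] at h1
    omega
  have hrange : LinearMap.range T' = ⊤ := by
    apply Submodule.eq_top_of_finrank_eq
    rw [hr12, Module.finrank_fin_fun]
  have hmem : (Fin.lastCases c y : Fin 12 → ℂ) ∈ LinearMap.range T' := by
    rw [hrange]; trivial
  obtain ⟨⟨Q, hQ⟩, hQ2⟩ := hmem
  refine ⟨Q, hQ, fun j => ?_, ?_⟩
  · have := congrFun hQ2 j.castSucc
    rw [hT', hTc] at this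
    rw [this, Fin.lastCases_castSucc]
  · have := congrFun hQ2 (Fin.last 11)
    rw [hT', hTl] at this
    rw [this, Fin.lastCases_last]

/-- polynomial version of `tanD` -/
noncomputable def tanP (F : P3) (a : Fin 3 → ℂ) (Q : P3) : P3 :=
  (pderiv 1 F * C (a 2) - pderiv 2 F * C (a 1)) * pderiv 0 Q +
  (pderiv 2 F * C (a 0) - pderiv 0 F * C (a 2)) * pderiv 1 Q +
  (pderiv 0 F * C (a 1) - pderiv 1 F * C (a 0)) * pderiv 2 Q

lemma eval_tanP (F : P3) (a z : Fin 3 → ℂ) (Q : P3) : eval z (tanP F a Q) = tanD F a z Q := by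
  rw [tanD_apply, tanP]
  simp [cr, Fin.sum_univ_three, grad]

lemma tanD_smul {F Q : P3} (hF : F.IsHomogeneous 3) (hQ : Q.IsHomogeneous 4) (a p : Fin 3 → ℂ)
    (l : ℂ) : tanD F a (l • p) Q = l ^ 5 * tanD F a p Q := by
  rw [tanD_apply, tanD_apply, grad_smul hF, grad_smul hQ]
  simp only [cr, Fin.sum_univ_three, Matrix.cons_val_zero, Matrix.cons_val_one, Matrix.cons_val,
    Pi.smul_apply, smul_eq_mul]
  ring

/-- Being in good position is a nonempty open condition on eleven-tuples of points of a smooth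
cubic. -/
theorem exists_open {F : P3} (hF : F.IsHomogeneous 3) (hs : SmoothForm F) :
    ∃ (a : Fin 3 → ℂ) (P : MvPolynomial (Fin 11 × Fin 3) ℂ),
      (∃ z : Fin 11 → Fin 3 → ℂ, (∀ i, z i ≠ 0 ∧ eval (z i) F = 0) ∧
        eval (fun ij => z ij.1 ij.2) P ≠ 0) ∧
      (∀ (z : Fin 11 → Fin 3 → ℂ) (l : Fin 11 → ℂ), (∀ i, l i ≠ 0) →
        (eval (fun ij => l ij.1 * z ij.1 ij.2) P ≠ 0 ↔ eval (fun ij => z ij.1 ij.2) P ≠ 0)) ∧
      ∀ z : Fin 11 → Fin 3 → ℂ, eval (fun ij => z ij.1 ij.2) P ≠ 0 → Good F a z := by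
  classical
  obtain ⟨a, z0, hz0, hz0F, hg⟩ := exists_good hF hs
  have hQ : ∀ (i : Fin 11) (k : Fin 12), ∃ Q : P3, Q.IsHomogeneous 4 ∧
      (∀ j : Fin 11, eval (z0 j) Q = if j.castSucc = k then 1 else 0) ∧
      tanD F a (z0 i) Q = if Fin.last 11 = k then 1 else 0 := by
    intro i k
    exact hg i (fun j => if j.castSucc = k then 1 else 0) (if Fin.last 11 = k then 1 else 0)
  choose Q hQ1 hQ2 hQ3 using hQ
  let M : Fin 11 → Matrix (Fin 12) (Fin 12) (MvPolynomial (Fin 11 × Fin 3) ℂ) := fun i =>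
    Matrix.of fun j k => Fin.lastCases (motive := fun _ => MvPolynomial (Fin 11 × Fin 3) ℂ)
      (rename (fun l => (i, l)) (tanP F a (Q i k)))
      (fun j => rename (fun l => (j, l)) (Q i k)) j
  have hMc : ∀ (i : Fin 11) (z : Fin 11 → Fin 3 → ℂ) (j : Fin 11) (k : Fin 12),
      eval (fun ij => z ij.1 ij.2) (M i j.castSucc k) = eval (z j) (Q i k) := by
    intro i z j k
    simp only [M, Matrix.of_apply, Fin.lastCases_castSucc, eval_rename]
    rfl
  have hMl : ∀ (i : Fin 11) (z : Fin 11 → Fin 3 → ℂ) (k : Fin 12),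
      eval (fun ij => z ij.1 ij.2) (M i (Fin.last 11) k) = tanD F a (z i) (Q i k) := by
    intro i z k
    simp only [M, Matrix.of_apply, Fin.lastCases_last, eval_rename]
    rw [← eval_tanP]
    rfl
  refine ⟨a, ∏ i, (M i).det, ⟨z0, fun i => ⟨hz0 i, hz0F i⟩, ?_⟩, ?_, ?_⟩
  · rw [map_prod, Finset.prod_ne_zero_iff]
    intro i _
    rw [RingHom.map_det]
    have : (eval (fun ij => z0 ij.1 ij.2)).mapMatrix (M i) = 1 := by
      ext j k
      rw [RingHom.mapMatrix_apply, Matrix.map_apply, Matrix.one_apply]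
      refine Fin.lastCases ?_ (fun j => ?_) j
      · rw [hMl, hQ3]
      · rw [hMc, hQ2]
    rw [this, Matrix.det_one]
    exact one_ne_zero
  · intro z l hl
    rw [map_prod, map_prod, Finset.prod_ne_zero_iff, Finset.prod_ne_zero_iff]
    refine forall_congr' fun i => forall_congr' fun _ => ?_
    rw [RingHom.map_det, RingHom.map_det]
    have hmat : (eval (fun ij => l ij.1 * z ij.1 ij.2)).mapMatrix (M i) =
        Matrix.diagonal (Fin.lastCases (l i ^ 5) (fun j => l j ^ 4)) *
          (eval (fun ij => z ij.1 ij.2)).mapMatrix (M i) := by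
      ext j k
      rw [Matrix.diagonal_mul, RingHom.mapMatrix_apply, Matrix.map_apply, RingHom.mapMatrix_apply,
        Matrix.map_apply]
      refine Fin.lastCases ?_ (fun j => ?_) j
      · rw [Fin.lastCases_last, hMl]
        have := hMl i (fun i => l i • z i) k
        simp only [Pi.smul_apply, smul_eq_mul] at this
        rw [this, tanD_smul hF (hQ1 i k)]
      · rw [Fin.lastCases_castSucc, hMc]
        have := hMc i (fun i => l i • z i) j k
        simp only [Pi.smul_apply, smul_eq_mul] at this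
        rw [this, eval_smul_homog (hQ1 i k)]
    rw [hmat, Matrix.det_mul, Matrix.det_diagonal, mul_ne_zero_iff, and_iff_right]
    rw [Finset.prod_ne_zero_iff]
    intro j _
    refine Fin.lastCases ?_ (fun j => ?_) j
    · rw [Fin.lastCases_last]; exact pow_ne_zero _ (hl i)
    · rw [Fin.lastCases_castSucc]; exact pow_ne_zero _ (hl j)
  · intro z hz i y w
    rw [map_prod, Finset.prod_ne_zero_iff] at hz
    have hdet := hz i (Finset.mem_univ _)
    rw [RingHom.map_det] at hdet
    set N := (eval (fun ij => z ij.1 ij.2)).mapMatrix (M i) with hN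
    have hNc : ∀ (j : Fin 11) (k : Fin 12), N j.castSucc k = eval (z j) (Q i k) := by
      intro j k
      rw [hN, RingHom.mapMatrix_apply, Matrix.map_apply, hMc]
    have hNl : ∀ (k : Fin 12), N (Fin.last 11) k = tanD F a (z i) (Q i k) := by
      intro k
      rw [hN, RingHom.mapMatrix_apply, Matrix.map_apply, hMl]
    have hunit : IsUnit N.det := isUnit_iff_ne_zero.mpr hdet
    set t : Fin 12 → ℂ := Fin.lastCases w y with ht
    set x : Fin 12 → ℂ := N⁻¹.mulVec t with hx
    have hNx : N.mulVec x = t := by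
      rw [hx, Matrix.mulVec_mulVec, Matrix.mul_nonsing_inv _ hunit, Matrix.one_mulVec]
    refine ⟨∑ k, C (x k) * Q i k, IsHomogeneous.sum _ _ _ fun k _ => (hQ1 i k).C_mul _,
      fun j => ?_, ?_⟩
    · have h1 := congrFun hNx j.castSucc
      rw [Matrix.mulVec, dotProduct] at h1
      simp only [ht, Fin.lastCases_castSucc] at h1
      rw [← h1, map_sum]
      refine Finset.sum_congr rfl fun k _ => ?_
      rw [map_mul, eval_C, hNc, mul_comm]
    · have h1 := congrFun hNx (Fin.last 11)
      rw [Matrix.mulVec, dotProduct] at h1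
      simp only [ht, Fin.lastCases_last] at h1
      rw [← h1, map_sum]
      refine Finset.sum_congr rfl fun k _ => ?_
      rw [← smul_eq_C_mul, map_smul, hNl, smul_eq_mul, mul_comm]

end Pool.Agent.MPafef76
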